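import Mathlib

/-! # MP_e93574_an: weakly contractive set-valued maps have fixed points -/

set_option autoImplicit false

namespace Pool.Agent.Results.MP_e93574_an.WeakContractionFixedPoint

open Filter Topology
open scoped NNReal

universe u

/-- The class `Γ`: continuous, nondecreasing, subadditive maps of `[0, ∞)` to itself which vanish
exactly at `0`. -/
def ClassGamma (γ : ℝ≥0 → ℝ≥0) : Prop :=
  Continuous γ ∧ Monotone γ ∧ (∀ s t, γ (s + t) ≤ γ s + γ t) ∧ ∀ s, γ s = 0 ↔ s = 0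

/-- The class `A`: for some `ε₀ > 0` and some `γ ∈ Γ`, `θ t ≤ ε₀` implies `γ t ≤ θ t`. -/
def ClassA (θ : ℝ≥0 → ℝ≥0) : Prop :=
  ∃ ε₀ : ℝ≥0, 0 < ε₀ ∧ ∃ γ : ℝ≥0 → ℝ≥0, ClassGamma γ ∧ ∀ t, θ t ≤ ε₀ → γ t ≤ θ t

/-- `T` has nonempty closed bounded values and
`H (T x, T y) ≤ d (x, y) - θ (d (x, y))`, `H` the Hausdorff distance. -/
def WeaklyContractive {X : Type u} [MetricSpace X] (θ : ℝ≥0 → ℝ≥0) (T : X → Set X) : Prop :=
  (∀ x, (T x).Nonempty ∧ IsClosed (T x) ∧ Bornology.IsBounded (T x)) ∧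
  ∀ x y, Metric.hausdorffDist (T x) (T y) ≤ dist x y - (θ (nndist x y) : ℝ)

section
variable {X : Type u} [MetricSpace X] {θ : ℝ≥0 → ℝ≥0} {T : X → Set X}

lemma edist_ne_top (h : WeaklyContractive θ T) (x y : X) :
    Metric.hausdorffEDist (T x) (T y) ≠ ⊤ :=
  Metric.hausdorffEDist_ne_top_of_nonempty_of_bounded (h.1 x).1 (h.1 y).1 (h.1 x).2.2 (h.1 y).2.2

lemma step (h : WeaklyContractive θ T) (p : {p : X × X // p.2 ∈ T p.1}) {ε : ℝ} (hε : 0 < ε) :
    ∃ q : {p : X × X // p.2 ∈ T p.1}, q.1.1 = p.1.2 ∧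
      dist q.1.1 q.1.2 ≤ dist p.1.1 p.1.2 - (θ (nndist p.1.1 p.1.2) : ℝ) + ε := by
  obtain ⟨c, hc, hd⟩ := Metric.exists_dist_lt_of_hausdorffDist_lt p.2
    (lt_add_of_pos_right (Metric.hausdorffDist (T p.1.1) (T p.1.2)) hε) (edist_ne_top h _ _)
  exact ⟨⟨(p.1.2, c), hc⟩, rfl, by linarith [h.2 p.1.1 p.1.2]⟩

/-- the orbit, as a sequence of consecutive pairs -/
noncomputable def orb (h : WeaklyContractive θ T) (p : {p : X × X // p.2 ∈ T p.1}) :
    ℕ → {p : X × X // p.2 ∈ T p.1}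
  | 0 => p
  | n + 1 => (step h (orb h p n) (ε := (1 / 2 : ℝ) ^ n) (by positivity)).choose

lemma orb_spec (h : WeaklyContractive θ T) (p : {p : X × X // p.2 ∈ T p.1}) (n : ℕ) :
    (orb h p (n + 1)).1.1 = (orb h p n).1.2 ∧
      dist (orb h p (n + 1)).1.1 (orb h p (n + 1)).1.2 ≤
        dist (orb h p n).1.1 (orb h p n).1.2 - (θ (nndist (orb h p n).1.1 (orb h p n).1.2) : ℝ)
          + (1 / 2 : ℝ) ^ n :=
  (step h (orb h p n) (ε := (1 / 2 : ℝ) ^ n) (by positivity)).choose_spec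

lemma gamma_sum {γ : ℝ≥0 → ℝ≥0} (hγ : ClassGamma γ) (f : ℕ → ℝ≥0) (s : Finset ℕ) :
    γ (∑ i ∈ s, f i) ≤ ∑ i ∈ s, γ (f i) := by
  classical
  induction s using Finset.induction_on with
  | empty => simp [(hγ.2.2.2 0).2 rfl]
  | insert a s ha ih =>
    rw [Finset.sum_insert ha, Finset.sum_insert ha]
    exact (hγ.2.2.1 _ _).trans (by gcongr)

theorem main [CompleteSpace X] (hθ : ClassA θ) (h : WeaklyContractive θ T) (x₀ : X) :
    ∃ x : ℕ → X, x 0 = x₀ ∧ (∀ n, x (n + 1) ∈ T (x n)) ∧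
      ∃ p, Tendsto x atTop (𝓝 p) ∧ p ∈ T p := by
  obtain ⟨x₁, hx₁⟩ := (h.1 x₀).1
  set o := orb h ⟨(x₀, x₁), hx₁⟩ with ho
  have hspec := orb_spec h ⟨(x₀, x₁), hx₁⟩
  rw [← ho] at hspec
  set x : ℕ → X := fun n => (o n).1.1 with hx
  have hx2 : ∀ n, (o n).1.2 = x (n + 1) := fun n => (hspec n).1.symm
  have hmem : ∀ n, x (n + 1) ∈ T (x n) := by
    intro n
    rw [← hx2]; exact (o n).2
  set d : ℕ → ℝ≥0 := fun n => nndist (x n) (x (n + 1)) with hd
  have hdec : ∀ n, (d (n + 1) : ℝ) ≤ d n - θ (d n) + (1 / 2 : ℝ) ^ n := by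
    intro n
    have := (hspec n).2
    rw [hx2 n, hx2 (n + 1)] at this
    simpa [d, coe_nndist] using this
  -- summability of `θ (d n)`
  have hpart : ∀ n, ∑ i ∈ Finset.range n, (θ (d i) : ℝ) ≤
      d 0 - d n + ∑ i ∈ Finset.range n, (1 / 2 : ℝ) ^ i := by
    intro n
    induction n with
    | zero => simp
    | succ n ih =>
      rw [Finset.sum_range_succ, Finset.sum_range_succ]
      have := hdec n
      linarith
  have hgeo : ∀ n, ∑ i ∈ Finset.range n, (1 / 2 : ℝ) ^ i ≤ 2 := by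
    intro n
    have := sum_le_hasSum (Finset.range n) (fun i _ => by positivity) hasSum_geometric_two
    simpa using this
  have hsumθ : Summable (fun n => (θ (d n) : ℝ)) := by
    refine summable_of_sum_range_le (c := d 0 + 2) (fun n => by positivity) (fun n => ?_)
    have h1 := hpart n
    have h2 := hgeo n
    have h3 : (0 : ℝ) ≤ d n := (d n).2
    linarith
  obtain ⟨ε₀, hε₀, γ, hγ, hγθ⟩ := hθ
  have hev : ∀ᶠ n in atTop, γ (d n) ≤ θ (d n) := by
    have h1 := hsumθ.tendsto_atTop_zero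
    have h2 : ∀ᶠ n in atTop, (θ (d n) : ℝ) < ε₀ := h1.eventually (gt_mem_nhds (by exact_mod_cast hε₀))
    filter_upwards [h2] with n hn
    exact hγθ _ (by exact_mod_cast hn.le)
  have hsumγ : Summable (fun n => (γ (d n) : ℝ)) := by
    refine Summable.of_norm_bounded_eventually_nat hsumθ ?_
    filter_upwards [hev] with n hn
    simpa using hn
  -- the orbit is Cauchy
  have hcau : CauchySeq x := by
    refine Metric.cauchySeq_iff'.2 (fun ε hε => ?_)
    have hγε : 0 < γ ⟨ε, hε.le⟩ := by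
      rw [pos_iff_ne_zero]
      intro h0
      have := (hγ.2.2.2 _).1 h0
      exact hε.ne' (congrArg NNReal.toReal this)
    have htail := tendsto_sum_nat_add (fun n => (γ (d n) : ℝ))
    obtain ⟨N, hN⟩ := ((htail.eventually (gt_mem_nhds (show (0 : ℝ) < γ ⟨ε, hε.le⟩ by
      exact_mod_cast hγε))).exists)
    refine ⟨N, fun n hn => ?_⟩
    have h1 : nndist (x N) (x n) ≤ ∑ i ∈ Finset.Ico N n, d i := by
      rw [← NNReal.coe_le_coe]
      push_cast
      simpa [d, coe_nndist] using dist_le_Ico_sum_dist x hn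
    have h2 : γ (nndist (x N) (x n)) ≤ ∑ i ∈ Finset.Ico N n, γ (d i) :=
      (hγ.2.1 h1).trans (gamma_sum hγ d _)
    have h3 : ∑ i ∈ Finset.Ico N n, (γ (d i) : ℝ) ≤ ∑' k, (γ (d (k + N)) : ℝ) := by
      rw [Finset.sum_Ico_eq_sum_range]
      have := ((summable_nat_add_iff N).2 hsumγ).sum_le_tsum (Finset.range (n - N))
        (fun i _ => by positivity)
      simpa [add_comm] using this
    have h4 : γ (nndist (x N) (x n)) < γ ⟨ε, hε.le⟩ := by
      have : (γ (nndist (x N) (x n)) : ℝ) < γ ⟨ε, hε.le⟩ := by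
        calc (γ (nndist (x N) (x n)) : ℝ) ≤ ((∑ i ∈ Finset.Ico N n, γ (d i) : ℝ≥0) : ℝ) := by
              exact_mod_cast h2
          _ = ∑ i ∈ Finset.Ico N n, (γ (d i) : ℝ) := by push_cast; rfl
          _ ≤ _ := h3
          _ < _ := hN
      exact_mod_cast this
    have h5 : nndist (x N) (x n) < ⟨ε, hε.le⟩ := by
      by_contra hcon
      exact absurd (hγ.2.1 (not_lt.1 hcon)) (not_le.2 h4)
    rw [dist_comm]
    exact_mod_cast h5
  obtain ⟨p, hp⟩ := cauchySeq_tendsto_of_complete hcau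
  refine ⟨x, rfl, hmem, p, hp, ?_⟩
  -- the limit is a fixed point
  rw [(h.1 p).2.1.mem_iff_infDist_zero (h.1 p).1]
  refine le_antisymm ?_ Metric.infDist_nonneg
  have hlim : Tendsto (fun n => dist p (x (n + 1)) + dist (x n) p) atTop (𝓝 0) := by
    have h1 : Tendsto (fun n => dist p (x (n + 1))) atTop (𝓝 0) := by
      have := (tendsto_const_nhds (x := p)).dist (hp.comp (tendsto_add_atTop_nat 1))
      simpa using this
    have h2 : Tendsto (fun n => dist (x n) p) atTop (𝓝 0) := tendsto_iff_dist_tendsto_zero.1 hp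
    simpa using h1.add h2
  refine ge_of_tendsto hlim (Eventually.of_forall (fun n => ?_))
  have h1 : Metric.infDist (x (n + 1)) (T p) ≤ Metric.hausdorffDist (T (x n)) (T p) :=
    Metric.infDist_le_hausdorffDist_of_mem (hmem n) (edist_ne_top h _ _)
  have h2 := h.2 (x n) p
  have h3 : (0 : ℝ) ≤ θ (nndist (x n) p) := NNReal.coe_nonneg _
  have h4 : Metric.infDist p (T p) ≤ Metric.infDist (x (n + 1)) (T p) + dist p (x (n + 1)) :=
    Metric.infDist_le_infDist_add_dist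
  linarith

end

/-- **Weakly contractive set-valued maps have fixed points.** Let `X` be a nonempty complete metric
space, `θ` in the class `A` and `T` a weakly contractive map of `X` into its nonempty closed
bounded subsets. Then `T` has a fixed point; moreover every point `x₀` is the first point of an
orbit `x (n + 1) ∈ T (x n)` which converges to a fixed point. -/
theorem result (X : Type u) [MetricSpace X] [CompleteSpace X] [Nonempty X] (θ : ℝ≥0 → ℝ≥0)
    (hθ : ClassA θ) (T : X → Set X) (hT : WeaklyContractive θ T) :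
    (∃ x, x ∈ T x) ∧
    ∀ x₀ : X, ∃ x : ℕ → X, x 0 = x₀ ∧ (∀ n, x (n + 1) ∈ T (x n)) ∧
      ∃ p, Tendsto x atTop (𝓝 p) ∧ p ∈ T p := by
  refine ⟨?_, fun x₀ => main hθ hT x₀⟩
  obtain ⟨x₀⟩ := ‹Nonempty X›
  obtain ⟨x, -, -, p, -, hp⟩ := main hθ hT x₀
  exact ⟨p, hp⟩

end Pool.Agent.Results.MP_e93574_an.WeakContractionFixedPoint
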